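import Pool.Agent.MWGR.StmtsF

set_option autoImplicit false

/-!
Row ARD of block MWGR (MP_23468a_al): a number lemma on divisors.
-/

namespace Pool.Agent.MWGR.H8

theorem ard : ArdStmt := by
  intro n m p e hn hm hp hnd
  refine ⟨p ^ (m.factorization p + 1), ?_, ?_⟩
  · rw [hp.pow_dvd_iff_le_factorization hm]
    omega
  · intro d hdn hdm
    have hd0 : d ≠ 0 := by
      rintro rfl
      have := Nat.eq_zero_of_zero_dvd hdn
      omega
    by_contra hM
    apply hdm
    rw [← Nat.factorization_le_iff_dvd hd0 hm]
    have hpe : p ^ e ≠ 0 := pow_ne_zero _ hp.ne_zero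
    have h1 : d.factorization ≤ (m * p ^ e).factorization :=
      (Nat.factorization_le_iff_dvd hd0 (mul_ne_zero hm hpe)).2 (hdn.trans hnd)
    rw [hp.pow_dvd_iff_le_factorization hd0] at hM
    intro l
    by_cases hl : l = p
    · subst hl
      omega
    · have h2 := h1 l
      rw [Nat.factorization_mul hm hpe, hp.factorization_pow] at h2
      simpa [Finsupp.single_apply, Ne.symm hl] using h2

end Pool.Agent.MWGR.H8
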