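import Pool.Agent.MWGR.StmtsN

set_option autoImplicit false

/-!
Row PSL of block MWGR (MP_23468a_al): push and substitution.
-/

namespace Pool.Agent.MWGR.H8

open Pool.Agent.Helper14_MV Pool.Agent.Helper2_MV Pool.Agent.MVO Pool.Agent.MWL Pool.Agent.MWS
  Pool.Agent.MWH

open Classical in
/-- the substitution of row PSL -/
noncomputable def psT (K d : ℕ) (σ : ℕ → List ℕ) : ℕ → List ℕ :=
  fun c => if NS K c then σ c else [c + d]

theorem psT_aux (K d : ℕ) (σ : ℕ → List ℕ) : ∀ (m : ℕ), m ≤ K → ∀ C : ℕ → List ℕ,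
    (∀ j ≤ m, ∀ c ∈ C j, NS K c) →
      (asm m C).flatMap (psT K d σ) = asd d m (fun j => (C j).flatMap σ) := by
  intro m
  induction m with
  | zero =>
    intro _ C hC
    simp only [asm, asd]
    exact flatMap_congr' (fun c hc => by
      unfold psT
      rw [if_pos (hC 0 (le_refl 0) c hc)])
  | succ m ih =>
    intro hm C hC
    simp only [asm, asd]
    rw [List.flatMap_append, List.flatMap_cons,
      ih (by omega) C (fun j hj => hC j (by omega))]
    have h1 : psT K d σ (m + 2) = [m + 2 + d] := by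
      unfold psT
      rw [if_neg]
      intro h
      exact h ⟨by omega, by omega⟩
    have h2 : (C (m + 1)).flatMap (psT K d σ) = (C (m + 1)).flatMap σ :=
      flatMap_congr' (fun c hc => by
        unfold psT
        rw [if_pos (hC (m + 1) (le_refl _) c hc)])
    rw [h1, h2]
    rfl

theorem psl : PslStmt := by
  intro θ k k' d f B B' σ hf hkk hB hB' hr
  have h := rr_push θ hf hB hB' hr
  have h2 := RR.sub (psT k' d σ) h
  have hC : ∀ B : ℕ → List ℕ, BlkOk k B → ∀ j ≤ k', ∀ c ∈ pshB k f B j, NS k' c := by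
    intro B hB j _ c hc
    obtain ⟨i, hi, -, hc⟩ := mem_pshB.1 hc
    have h3 := hB i hi c hc
    unfold NS at h3 ⊢
    omega
  rw [psT_aux k' d σ k' (le_refl _) _ (hC B hB), psT_aux k' d σ k' (le_refl _) _ (hC B' hB')] at h2
  exact h2

end Pool.Agent.MWGR.H8
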