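import Pool.Agent.Helper8_MWGR.Tks

/-!
# Row RZE of squad MWGR, part 2: every block is related to the realisation of its tokens
-/

set_option autoImplicit false

namespace Pool.Agent.MWGR.H8

open Pool.Agent.Helper14_MV Pool.Agent.Helper2_MV Pool.Agent.MVO Pool.Agent.MWL Pool.Agent.MWS
  Pool.Agent.MWH

theorem gg_cons (y : ℕ) (S : List ℕ) (g : ℕ → ℕ) :
    GG (y :: S) g = List.replicate (g y) y ++ GG S g := by
  unfold GG
  rw [List.flatMap_cons]

theorem mem_gg {S : List ℕ} {g : ℕ → ℕ} {c : ℕ} (h : c ∈ GG S g) : c ∈ S := by
  unfold GG at h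
  rw [List.mem_flatMap] at h
  obtain ⟨x, hx, hc⟩ := h
  rw [(List.mem_replicate.1 hc).2]
  exact hx

theorem count_gg (c : ℕ) (g : ℕ → ℕ) : ∀ S : List ℕ, S.Nodup →
    (GG S g).count c = if c ∈ S then g c else 0 := by
  intro S
  induction S with
  | nil => intro _; rfl
  | cons y S ih =>
    intro h
    rw [List.nodup_cons] at h
    rw [gg_cons, List.count_append, List.count_replicate, ih h.2]
    by_cases hc : c = y
    · subst hc
      rw [if_pos (by simp), if_neg h.1, if_pos List.mem_cons_self, Nat.add_zero]
    · have h1 : ¬ ((y == c) = true) := by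
        rw [beq_iff_eq]
        exact fun h => hc h.symm
      rw [if_neg h1, Nat.zero_add]
      by_cases h2 : c ∈ S
      · rw [if_pos h2, if_pos (List.mem_cons_of_mem _ h2)]
      · rw [if_neg h2, if_neg]
        rw [List.mem_cons]
        tauto

theorem gg_zero (S : List ℕ) : GG S (fun _ => 0) = [] := by
  unfold GG
  rw [List.flatMap_eq_nil_iff]
  intro x _
  rfl

/-- the open letters -/
def opf (l1 l2 : List ℕ) : ℕ → Bool := fun x => decide (x ∈ l1 ∧ x ∈ l2)

theorem mem_K {H l1 l2 : List ℕ} {x : ℕ} : x ∈ H.filter (opf l1 l2) ↔ x ∈ H ∧ x ∈ l1 ∧ x ∈ l2 := by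
  unfold opf
  rw [List.mem_filter, decide_eq_true_iff]

theorem real0 (n : ℕ) (H : List ℕ) (Λ : ℕ → ℕ → ℕ) (N : ℕ → ℕ) (O : ℕ → Bool) (a : ℕ)
    (T : List ℕ) : real n H Λ N O (3 * a :: T) = outL n H Λ O a ++ real n H Λ N O T := by
  have h1 : 3 * a % 3 = 0 := by omega
  have h2 : 3 * a / 3 = a := by omega
  show (if 3 * a % 3 = 0 then outL n H Λ O (3 * a / 3) else _) ++
    real n H Λ N (if 3 * a % 3 = 0 then O else _) T = _
  rw [if_pos h1, if_pos h1, h2]

theorem real1 (n : ℕ) (H : List ℕ) (Λ : ℕ → ℕ → ℕ) (N : ℕ → ℕ) (O : ℕ → Bool) (x : ℕ)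
    (T : List ℕ) : real n H Λ N O ((3 * x + 1) :: T) =
      List.replicate (2 * n) x ++ real n H Λ N (Function.update O x true) T := by
  have h0 : ¬ (3 * x + 1) % 3 = 0 := by omega
  have h1 : (3 * x + 1) % 3 = 1 := by omega
  have h2 : (3 * x + 1) / 3 = x := by omega
  show (if (3 * x + 1) % 3 = 0 then _ else if (3 * x + 1) % 3 = 1 then
      List.replicate (2 * n) ((3 * x + 1) / 3) else _) ++
    real n H Λ N (if (3 * x + 1) % 3 = 0 then O else
      Function.update O ((3 * x + 1) / 3) (decide ((3 * x + 1) % 3 = 1))) T = _
  rw [if_neg h0, if_pos h1, if_neg h0, h2, decide_eq_true h1]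

theorem real2 (n : ℕ) (H : List ℕ) (Λ : ℕ → ℕ → ℕ) (N : ℕ → ℕ) (O : ℕ → Bool) (x : ℕ)
    (T : List ℕ) : real n H Λ N O ((3 * x + 2) :: T) =
      List.replicate (n + N x) x ++ real n H Λ N (Function.update O x false) T := by
  have h0 : ¬ (3 * x + 2) % 3 = 0 := by omega
  have h1 : ¬ (3 * x + 2) % 3 = 1 := by omega
  have h2 : (3 * x + 2) / 3 = x := by omega
  show (if (3 * x + 2) % 3 = 0 then _ else if (3 * x + 2) % 3 = 1 then _ else
      List.replicate (n + N ((3 * x + 2) / 3)) ((3 * x + 2) / 3)) ++
    real n H Λ N (if (3 * x + 2) % 3 = 0 then O else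
      Function.update O ((3 * x + 2) / 3) (decide ((3 * x + 2) % 3 = 1))) T = _
  rw [if_neg h0, if_neg h1, if_neg h0, h2, decide_eq_false h1]

/-- the open function after one letter, away from this letter -/
theorem opf_ne {l1 l2 : List ℕ} {c y : ℕ} (h : y ≠ c) :
    opf l1 (c :: l2) y = opf (l1 ++ [c]) l2 y := by
  unfold opf
  apply decide_eq_decide.2
  rw [List.mem_cons, List.mem_append, List.mem_singleton]
  tauto

/-- permutation by counting -/
theorem prc (h : PrmStmt) {n : ℕ} {β : FIC} (hB : BG n (RR β)) {H pre suf A P P' D : List ℕ}
    (hO : Ok1 H pre suf (A ++ (P ++ D))) (hP : ∀ c ∈ P, c ∈ H)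
    (hc : ∀ c, P.count c = P'.count c) : Ok1 H pre suf (A ++ (P' ++ D)) ∧
      RR β (Wd pre suf (A ++ (P ++ D))) (Wd pre suf (A ++ (P' ++ D))) :=
  h n β hB H pre suf A P P' D hO hP (List.perm_iff_count.2 hc)

theorem count_single (c x : ℕ) : [x].count c = if c = x then 1 else 0 := by
  rw [List.count_singleton]
  by_cases h : c = x
  · subst h
    simp
  · rw [if_neg h, if_neg]
    rw [beq_iff_eq]
    exact fun h' => h h'.symm

theorem count_rep (c x m : ℕ) : (List.replicate m x).count c = if c = x then m else 0 := by
  rw [List.count_replicate]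
  by_cases h : c = x
  · subst h
    simp
  · rw [if_neg h, if_neg]
    rw [beq_iff_eq]
    exact fun h' => h h'.symm

section main

variable {n : ℕ} {β : FIC} {H pre suf l : List ℕ}

/-- the factor of the open letters -/
def QQ (n : ℕ) (H l1 l2 : List ℕ) : List ℕ := GG (H.filter (opf l1 l2)) (fun x => n + l1.count x)

theorem qq_heavy {l1 l2 : List ℕ} : ∀ c ∈ QQ n H l1 l2, c ∈ H := fun _ hc => (mem_K.1 (mem_gg hc)).1

theorem qq_count (hH : H.Nodup) (l1 l2 : List ℕ) (c : ℕ) : (QQ n H l1 l2).count c =
    if c ∈ H ∧ c ∈ l1 ∧ c ∈ l2 then n + l1.count c else 0 := by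
  unfold QQ
  rw [count_gg c _ _ (hH.filter _)]
  by_cases h : c ∈ H ∧ c ∈ l1 ∧ c ∈ l2
  · rw [if_pos h, if_pos (mem_K.2 h)]
  · rw [if_neg h, if_neg fun h' => h (mem_K.1 h')]

theorem qq_ne (hH : H.Nodup) {l1 l2 : List ℕ} {c x : ℕ} (h : c ≠ x) :
    (QQ n H l1 (x :: l2)).count c = (QQ n H (l1 ++ [x]) l2).count c := by
  rw [qq_count hH, qq_count hH]
  have e1 : c ∈ x :: l2 ↔ c ∈ l2 := by
    rw [List.mem_cons]
    tauto
  have e2 : c ∈ l1 ++ [x] ↔ c ∈ l1 := by
    rw [List.mem_append, List.mem_singleton]
    tauto
  have e3 : (l1 ++ [x]).count c = l1.count c := by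
    rw [List.count_append, count_single, if_neg h, Nat.add_zero]
  rw [e3]
  exact if_congr (by rw [e1, e2]) rfl rfl

theorem rel (h2 : PrmStmt) (h3 : InlStmt) (h5 : ExsStmt) (hB : BG n (RR β))
    (hl : Ok1 H pre suf l) : ∀ (l2 l1 R1 : List ℕ), l1 ++ l2 = l →
      Ok1 H pre suf (R1 ++ (QQ n H l1 l2 ++ l2)) → (∀ x ∈ H, x ∈ l1 → x ∈ l2 → x ∈ R1) →
        RR β (Wd pre suf (R1 ++ (QQ n H l1 l2 ++ l2)))
          (Wd pre suf (R1 ++ real n H (cb l) (fun x => l.count x) (opf l1 l2)
            (tks H l1 l2 []))) := by
  intro l2
  induction l2 with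
  | nil =>
    intro l1 R1 _ _ _
    have e1 : QQ n H l1 [] = [] := by
      unfold QQ
      have : H.filter (opf l1 []) = [] := by
        rw [List.filter_eq_nil_iff]
        intro a _
        unfold opf
        simp
      rw [this]
      rfl
    rw [e1, tks_nil]
    exact RR.refl _
  | cons c l2 ih =>
    intro l1 R1 hll hO hR
    have hcl : ∀ y, l.count y = l1.count y + ((if y = c then 1 else 0) + l2.count y) := by
      intro y
      rw [← hll, List.count_append]
      have : c :: l2 = [c] ++ l2 := rfl
      rw [this, List.count_append, count_single]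
    have hll' : (l1 ++ [c]) ++ l2 = l := by
      rw [List.append_assoc]
      exact hll
    -- the induction step from the key relation
    have step : ∀ (R' : List ℕ), Ok1 H pre suf (R' ++ (QQ n H (l1 ++ [c]) l2 ++ l2)) →
        RR β (Wd pre suf (R1 ++ (QQ n H l1 (c :: l2) ++ c :: l2)))
          (Wd pre suf (R' ++ (QQ n H (l1 ++ [c]) l2 ++ l2))) →
        (∀ x ∈ H, x ∈ l1 ++ [c] → x ∈ l2 → x ∈ R') →
        R' ++ real n H (cb l) (fun x => l.count x) (opf (l1 ++ [c]) l2) (tks H (l1 ++ [c]) l2 []) =
          R1 ++ real n H (cb l) (fun x => l.count x) (opf l1 (c :: l2)) (tks H l1 (c :: l2) []) →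
        RR β (Wd pre suf (R1 ++ (QQ n H l1 (c :: l2) ++ c :: l2)))
          (Wd pre suf (R1 ++ real n H (cb l) (fun x => l.count x) (opf l1 (c :: l2))
            (tks H l1 (c :: l2) []))) := by
      intro R' hO' hr hx he
      rw [← he]
      exact β.trans hr (ih (l1 ++ [c]) R' hll' hO' hx)
    have hassoc : R1 ++ (QQ n H l1 (c :: l2) ++ c :: l2) =
        R1 ++ ((QQ n H l1 (c :: l2) ++ [c]) ++ l2) := by
      rw [List.append_assoc (QQ n H l1 (c :: l2)) [c] l2]
      rfl
    by_cases hc : c ∈ H
    · have hPh : ∀ y ∈ QQ n H l1 (c :: l2) ++ [c], y ∈ H := by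
        intro y hy
        rcases List.mem_append.1 hy with h | h
        · exact qq_heavy y h
        · rw [List.mem_singleton.1 h]
          exact hc
      have hck : (l1 ++ [c]).count c = l1.count c + 1 := by
        rw [List.count_append, count_single, if_pos rfl]
      by_cases h1 : c ∈ l1
      · by_cases hc2 : c ∈ l2
        · -- a middle occurrence
          have key := prc h2 hB (A := R1) (P := QQ n H l1 (c :: l2) ++ [c])
            (P' := QQ n H (l1 ++ [c]) l2) (D := l2) (by rw [← hassoc]; exact hO) hPh (by
              intro y
              rw [List.count_append, count_single]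
              by_cases hy : y = c
              · subst hy
                rw [qq_count hl.nd, qq_count hl.nd, if_pos rfl, if_pos, if_pos, hck]
                · ring
                · exact ⟨hc, List.mem_append_left _ h1, hc2⟩
                · exact ⟨hc, h1, List.mem_cons_self⟩
              · rw [if_neg hy, Nat.add_zero]
                exact qq_ne hl.nd hy)
          refine step R1 key.1 ?_ ?_ ?_
          · rw [hassoc]
            exact key.2
          · intro x hx hx1 hx2
            refine hR x hx ?_ (List.mem_cons_of_mem _ hx2)
            rcases List.mem_append.1 hx1 with h | h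
            · exact h
            · rw [List.mem_singleton.1 h]
              exact h1
          · rw [tks_mid hc h1 (List.mem_append_left _ hc2)]
            have e : opf (l1 ++ [c]) l2 = opf l1 (c :: l2) := by
              funext y
              by_cases hy : y = c
              · subst hy
                unfold opf
                rw [decide_eq_true, decide_eq_true]
                · exact ⟨h1, List.mem_cons_self⟩
                · exact ⟨List.mem_append_left _ h1, hc2⟩
              · exact (opf_ne hy).symm
            rw [e]
        · -- the last occurrence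
          have hN : l.count c = l1.count c + 1 := by
            have := hcl c
            rw [if_pos rfl, List.count_eq_zero.2 hc2] at this
            omega
          have key := prc h2 hB (A := R1) (P := QQ n H l1 (c :: l2) ++ [c])
            (P' := List.replicate (n + l.count c) c ++ QQ n H (l1 ++ [c]) l2) (D := l2)
            (by rw [← hassoc]; exact hO) hPh (by
              intro y
              rw [List.count_append, count_single, List.count_append, count_rep]
              by_cases hy : y = c
              · subst hy
                rw [qq_count hl.nd, qq_count hl.nd, if_pos rfl, if_pos, if_pos rfl, if_neg, hN]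
                · ring
                · exact fun h => hc2 h.2.2
                · exact ⟨hc, h1, List.mem_cons_self⟩
              · rw [if_neg hy, if_neg hy, Nat.add_zero, Nat.zero_add]
                exact qq_ne hl.nd hy)
          have hassoc2 : R1 ++ ((List.replicate (n + l.count c) c ++ QQ n H (l1 ++ [c]) l2) ++ l2) =
              (R1 ++ List.replicate (n + l.count c) c) ++ (QQ n H (l1 ++ [c]) l2 ++ l2) := by
            simp only [List.append_assoc]
          refine step (R1 ++ List.replicate (n + l.count c) c) ?_ ?_ ?_ ?_
          · rw [← hassoc2]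
            exact key.1
          · rw [hassoc, ← hassoc2]
            exact key.2
          · intro x hx hx1 hx2
            refine List.mem_append_left _ (hR x hx ?_ (List.mem_cons_of_mem _ hx2))
            rcases List.mem_append.1 hx1 with h | h
            · exact h
            · rw [List.mem_singleton.1 h] at hx2
              exact absurd hx2 hc2
          · rw [tks_last hc h1 (by rw [List.append_nil]; exact hc2), real2]
            have e : opf (l1 ++ [c]) l2 = Function.update (opf l1 (c :: l2)) c false := by
              funext y
              by_cases hy : y = c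
              · subst hy
                rw [Function.update_self]
                unfold opf
                rw [decide_eq_false]
                exact fun h => hc2 h.2
              · rw [Function.update_of_ne hy]
                exact (opf_ne hy).symm
            rw [e, List.append_assoc]
      · -- the first occurrence
        have hc2 : c ∈ l2 := by
          have h4 := hl.hv c hc
          have h5 := hcl c
          rw [if_pos rfl, List.count_eq_zero.2 h1] at h5
          exact List.count_pos_iff.1 (by omega)
        have k1 := prc h2 hB (A := R1) (P := QQ n H l1 (c :: l2) ++ [c])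
          (P' := [c] ++ QQ n H l1 (c :: l2)) (D := l2) (by rw [← hassoc]; exact hO) hPh (by
            intro y
            rw [List.count_append, List.count_append, Nat.add_comm])
        have a1 : R1 ++ (([c] ++ QQ n H l1 (c :: l2)) ++ l2) =
            (R1 ++ [c]) ++ (QQ n H l1 (c :: l2) ++ l2) := by
          simp only [List.append_assoc]
        have k2 := h3 n β hB H pre suf (R1 ++ [c]) (QQ n H l1 (c :: l2) ++ l2) c 3
          (by rw [← a1]; exact k1.1) hc (List.mem_append_right _ (List.mem_singleton.2 rfl))
          (List.mem_append_right _ hc2)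
        have a2 : (R1 ++ [c]) ++ (List.replicate (n * 3) c ++ (QQ n H l1 (c :: l2) ++ l2)) =
            R1 ++ (([c] ++ (List.replicate (n * 3) c ++ QQ n H l1 (c :: l2))) ++ l2) := by
          simp only [List.append_assoc]
        have k3 := prc h2 hB (A := R1)
          (P := [c] ++ (List.replicate (n * 3) c ++ QQ n H l1 (c :: l2)))
          (P' := List.replicate (2 * n) c ++ QQ n H (l1 ++ [c]) l2) (D := l2)
          (by rw [← a2]; exact k2.1) (by
            intro y hy
            rcases List.mem_append.1 hy with h | h
            · rw [List.mem_singleton.1 h]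
              exact hc
            · rcases List.mem_append.1 h with h | h
              · rw [(List.mem_replicate.1 h).2]
                exact hc
              · exact qq_heavy y h) (by
            intro y
            rw [List.count_append, List.count_append, List.count_append, count_single, count_rep,
              count_rep]
            by_cases hy : y = c
            · subst hy
              rw [qq_count hl.nd, qq_count hl.nd, if_pos rfl, if_pos rfl, if_pos rfl, if_neg,
                if_pos, hck, List.count_eq_zero.2 h1]
              · ring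
              · exact ⟨hc, List.mem_append_right _ (List.mem_singleton.2 rfl), hc2⟩
              · exact fun h => h1 h.2.1
            · rw [if_neg hy, if_neg hy, if_neg hy, Nat.zero_add, Nat.zero_add, Nat.zero_add]
              exact qq_ne hl.nd hy)
        have a3 : R1 ++ ((List.replicate (2 * n) c ++ QQ n H (l1 ++ [c]) l2) ++ l2) =
            (R1 ++ List.replicate (2 * n) c) ++ (QQ n H (l1 ++ [c]) l2 ++ l2) := by
          simp only [List.append_assoc]
        refine step (R1 ++ List.replicate (2 * n) c) ?_ ?_ ?_ ?_
        · rw [← a3]
          exact k3.1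
        · rw [hassoc, ← a3]
          refine β.trans k1.2 (β.trans ?_ k3.2)
          rw [a1, ← a2]
          exact k2.2
        · intro x hx hx1 hx2
          rcases List.mem_append.1 hx1 with h | h
          · exact List.mem_append_left _ (hR x hx h (List.mem_cons_of_mem _ hx2))
          · rw [List.mem_singleton.1 h]
            refine List.mem_append_right _ (List.mem_replicate.2 ⟨?_, rfl⟩)
            have := hB.pos
            omega
        · rw [tks_first hc h1, real1]
          have e : opf (l1 ++ [c]) l2 = Function.update (opf l1 (c :: l2)) c true := by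
            funext y
            by_cases hy : y = c
            · subst hy
              rw [Function.update_self]
              unfold opf
              rw [decide_eq_true]
              exact ⟨List.mem_append_right _ (List.mem_singleton.2 rfl), hc2⟩
            · rw [Function.update_of_ne hy]
              exact (opf_ne hy).symm
          rw [e, List.append_assoc]
    · -- a light letter
      have hcml : c ∈ l := by
        rw [← hll]
        exact List.mem_append_right _ List.mem_cons_self
      have hc1' := (hl.lt c hcml hc).1
      have hc5 := hcl c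
      rw [hc1', if_pos rfl] at hc5
      have hc1 : c ∉ l1 := by
        rw [← List.count_eq_zero]
        omega
      have hc2 : c ∉ l2 := by
        rw [← List.count_eq_zero]
        omega
      have hcb : ∀ x, cb l x c = l1.count x := by
        intro x
        rw [← hll]
        exact cb_split hc1 x
      have eop : opf (l1 ++ [c]) l2 = opf l1 (c :: l2) := by
        funext y
        by_cases hy : y = c
        · subst hy
          unfold opf
          rw [decide_eq_false, decide_eq_false]
          · exact fun h => hc1 h.1
          · exact fun h => hc2 h.2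
        · exact (opf_ne hy).symm
      obtain ⟨K, hK⟩ : ∃ K : List ℕ, K = H.filter (opf l1 (c :: l2)) := ⟨_, rfl⟩
      have hKm : ∀ x, x ∈ K ↔ x ∈ H ∧ x ∈ l1 ∧ x ∈ l2 := by
        intro x
        rw [hK, mem_K, List.mem_cons]
        constructor
        · rintro ⟨h6, h7, h8 | h8⟩
          · exact absurd h6 (by rw [h8]; exact hc)
          · exact ⟨h6, h7, h8⟩
        · rintro ⟨h6, h7, h8⟩
          exact ⟨h6, h7, Or.inr h8⟩
      have hKn : K.Nodup := by
        rw [hK]
        exact hl.nd.filter _
      have q1 : QQ n H l1 (c :: l2) = GG K (fun x => n + cb l x c) := by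
        unfold QQ
        rw [← hK]
        simp only [hcb]
      -- insertion behind `c`
      obtain ⟨A, hA⟩ : ∃ A : List ℕ, A = R1 ++ (QQ n H l1 (c :: l2) ++ [c]) := ⟨_, rfl⟩
      have hAD : R1 ++ (QQ n H l1 (c :: l2) ++ c :: l2) =
          A ++ (GG K (fun _ => 0) ++ l2) := by
        rw [gg_zero, hA]
        simp only [List.append_assoc, List.nil_append, List.cons_append]
      obtain ⟨g, hg⟩ : ∃ g : ℕ → ℕ, g = fun x => (n + (n - 1) * cb l x c) + (n + l1.count x) :=
        ⟨_, rfl⟩
      have hex := (h5 n β hB H pre suf K A l2 (fun _ => 0) g (by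
        intro x hx
        have h6 := (hKm x).1 hx
        refine ⟨h6.1, ?_, h6.2.2⟩
        rw [hA]
        exact List.mem_append_left _ (hR x h6.1 h6.2.1 (List.mem_cons_of_mem _ h6.2.2)))).1
        (by rw [← hAD]; exact hO) (by
          intro x _
          have e : g x = n * (l1.count x + 2) := by
            rw [hg]
            show (n + (n - 1) * cb l x c) + (n + l1.count x) = _
            rw [hcb]
            obtain ⟨m, hm⟩ : ∃ m, n = m + 1 := ⟨n - 1, by have := hB.pos; omega⟩
            rw [hm, Nat.add_sub_cancel]
            ring
          rw [e]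
          exact (Nat.modEq_zero_iff_dvd.2 (Dvd.intro _ rfl)).symm)
      have k2 := prc h2 hB (A := A) (P := GG K g)
        (P' := GG K (fun x => n + (n - 1) * cb l x c) ++ QQ n H (l1 ++ [c]) l2) (D := l2)
        hex.1 (fun y hy => ((hKm y).1 (mem_gg hy)).1) (by
          intro y
          rw [List.count_append, count_gg y _ K hKn, count_gg y _ K hKn, qq_count hl.nd]
          by_cases hy : y ∈ K
          · have h6 := (hKm y).1 hy
            have hyc : y ≠ c := by
              rintro rfl
              exact hc h6.1
            rw [if_pos hy, if_pos hy, if_pos ⟨h6.1, List.mem_append_left _ h6.2.1, h6.2.2⟩, hg,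
              List.count_append, count_single, if_neg hyc, Nat.add_zero]
          · rw [if_neg hy, if_neg hy, if_neg, Nat.add_zero]
            rintro ⟨h6, h7, h8⟩
            apply hy
            rw [hKm]
            refine ⟨h6, ?_, h8⟩
            rcases List.mem_append.1 h7 with h | h
            · exact h
            · rw [List.mem_singleton.1 h] at h6
              exact absurd h6 hc)
      have hout : outL n H (cb l) (opf l1 (c :: l2)) c =
          QQ n H l1 (c :: l2) ++ c :: GG K (fun x => n + (n - 1) * cb l x c) := by
        unfold outL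
        rw [← hK, q1]
      have a3 : A ++ ((GG K (fun x => n + (n - 1) * cb l x c) ++ QQ n H (l1 ++ [c]) l2) ++ l2) =
          (R1 ++ outL n H (cb l) (opf l1 (c :: l2)) c) ++ (QQ n H (l1 ++ [c]) l2 ++ l2) := by
        rw [hout, hA]
        simp only [List.append_assoc, List.nil_append, List.cons_append]
      refine step (R1 ++ outL n H (cb l) (opf l1 (c :: l2)) c) ?_ ?_ ?_ ?_
      · rw [← a3]
        exact k2.1
      · rw [← a3, hAD]
        exact β.trans hex.2 k2.2
      · intro x hx hx1 hx2
        refine List.mem_append_left _ (hR x hx ?_ (List.mem_cons_of_mem _ hx2))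
        rcases List.mem_append.1 hx1 with h | h
        · exact h
        · rw [List.mem_singleton.1 h] at hx
          exact absurd hx hc
      · rw [tks_light hc, real0, eop, List.append_assoc]

end main

/-- row RZE -/
theorem rze (h1 : HhlStmt) (h2 : PrmStmt) (h3 : InlStmt) (h4 : ExlStmt) (h5 : ExsStmt)
    (h6 : RapStmt) (h7 : RokStmt) : RzeStmt := by
  intro n β hB H pre suf l hl
  obtain ⟨f1, f2, f3, f4⟩ := tok_facts hl
  refine ⟨tks H [] l [], f1, f2, f3, f4, ?_⟩
  have hQ : QQ n H [] l = [] := by
    unfold QQ
    have : H.filter (opf [] l) = [] := by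
      rw [List.filter_eq_nil_iff]
      intro a _
      unfold opf
      simp
    rw [this]
    rfl
  have h8 := rel h2 h3 h5 hB hl l [] [] rfl (by rw [hQ]; exact hl) (fun x _ hx => by simp at hx)
  rw [hQ] at h8
  have hO : opf [] l = O0 := by
    funext y
    unfold opf O0
    simp
  rw [hO] at h8
  exact h8

end Pool.Agent.MWGR.H8
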